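import Pool.Agent.H15.G.R_seed8.TH176.Nag.Flat
import Pool.Agent.H15.G.R_seed8.TH15.NagEmpGeneric

/-! Job NAG-T3: cutting the exponent set by a line. -/

set_option autoImplicit false

namespace Pool.Agent.TH698.NagT3

open Finset Pool.Agent.TH176.Nag

section scaling

variable {K : Type} [Field K]

theorem tv_ne : tv K ≠ 0 := by simp [tv]

theorem tv_zpow_order (k : ℤ) : (tv K ^ k).order = k := by
  have ht : tv K ≠ 0 := tv_ne
  have hp : ∀ n : ℕ, (tv K ^ n).order = n := by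
    intro n
    rw [HahnSeries.order_pow, HahnSeries.order_single one_ne_zero]; simp
  rcases le_or_gt 0 k with h | h
  · obtain ⟨n, hn⟩ := Int.eq_ofNat_of_zero_le h
    rw [hn, zpow_natCast, hp]
  · obtain ⟨n, hn⟩ := Int.eq_ofNat_of_zero_le (show 0 ≤ -k by omega)
    have e : k = -(n : ℤ) := by omega
    rw [e]
    have h2 : tv K ^ (-(n : ℤ)) * tv K ^ n = 1 := by
      rw [← zpow_natCast, ← zpow_add₀ ht]; simp
    have h3 := congrArg HahnSeries.order h2
    rw [HahnSeries.order_mul (zpow_ne_zero _ ht) (pow_ne_zero _ ht), hp, HahnSeries.order_one] at h3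
    omega

/-- scaling the variables by `tv ^ (-a)` and `tv ^ (-b)` -/
noncomputable def sc (a b : ℤ) (f : (ℤ × ℤ) →₀ LaurentSeries K) : (ℤ × ℤ) →₀ LaurentSeries K :=
  Finsupp.onFinset f.support (fun m => f m * tv K ^ (-(a * m.1 + b * m.2))) (fun m hm => by
    rw [Finsupp.mem_support_iff]
    intro h
    apply hm
    rw [h, zero_mul])

theorem sc_apply (a b : ℤ) (f : (ℤ × ℤ) →₀ LaurentSeries K) (m : ℤ × ℤ) :
    sc a b f m = f m * tv K ^ (-(a * m.1 + b * m.2)) := rfl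

theorem sc_support (a b : ℤ) (f : (ℤ × ℤ) →₀ LaurentSeries K) :
    (sc a b f).support = f.support := by
  ext m
  rw [Finsupp.mem_support_iff, Finsupp.mem_support_iff, sc_apply]
  simp [zpow_ne_zero _ (tv_ne (K := K))]

theorem LM_sc {a b : ℤ} {f : (ℤ × ℤ) →₀ LaurentSeries K} {x y : LaurentSeries K} {w : ℕ}
    (h : LM f (tv K ^ (-a) * x) (tv K ^ (-b) * y) w) : LM (sc a b f) x y w := by
  intro P hP
  have h1 := h P hP
  unfold pr Finsupp.sum at h1 ⊢
  rw [sc_support, ← h1]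
  apply sum_congr rfl
  intro m _
  have ht : tv K ≠ 0 := tv_ne
  beta_reduce
  rw [sc_apply, mul_zpow, mul_zpow, ← zpow_mul, ← zpow_mul,
    show -(a * m.1 + b * m.2) = -a * m.1 + -b * m.2 by ring, zpow_add₀ ht]
  ring

theorem sc_order {a b : ℤ} {f : (ℤ × ℤ) →₀ LaurentSeries K} {m : ℤ × ℤ} (hm : f m ≠ 0) :
    (sc a b f m).order = (f m).order - (a * m.1 + b * m.2) := by
  rw [sc_apply, HahnSeries.order_mul hm (zpow_ne_zero _ tv_ne), tv_zpow_order]
  ring

/-- all orders are at least the leading one -/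
theorem le_order {g : (ℤ × ℤ) →₀ LaurentSeries K} {n : ℤ}
    (h : ∀ m, ∀ k < n, (g m).coeff k = 0) {m : ℤ × ℤ} (hm : g m ≠ 0) : n ≤ (g m).order := by
  by_contra hlt
  exact hm (HahnSeries.coeff_order_eq_zero.1 (h m _ (not_le.1 hlt)))

end scaling

theorem exists_indep (ι' : Type) [Finite ι'] : ∃ f : ι' → ℂ, AlgebraicIndependent ℚ f := by
  obtain ⟨s, hs⟩ := exists_isTranscendenceBasis ℚ ℂ
  have h1 := IsAlgClosed.cardinal_eq_cardinal_transcendence_basis_of_aleph0_lt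
    (R := ℚ) (K := ℂ) (fun x : s => (x : ℂ)) hs
    (by simp) (by rw [Cardinal.mk_complex]; exact Cardinal.aleph0_lt_continuum)
  have h2 : Infinite s := by
    rw [Cardinal.infinite_iff]
    have : Cardinal.mk s = Cardinal.mk ℂ := by simpa using h1.symm
    rw [this, Cardinal.mk_complex]; exact Cardinal.aleph0_le_continuum
  obtain ⟨n, ⟨e⟩⟩ := Finite.exists_equiv_fin ι'
  have e2 : Fin n ↪ s := (Fin.valEmbedding.trans (Infinite.natEmbedding s))
  exact ⟨fun i => (e2 (e i) : ℂ), hs.1.comp (fun i => e2 (e i)) (e2.injective.comp e.injective)⟩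

/-- the leading part has an exponent outside `S` -/
theorem lead_out {ι : Type} {w : ι → ℕ} {S T : Set (ℤ × ℤ)} {x y : ι → ℂ}
    (hS : ∀ f : (ℤ × ℤ) →₀ ℂ, (↑f.support : Set (ℤ × ℤ)) ⊆ S → (∀ i, LM f (x i) (y i) (w i)) → f = 0)
    {g : (ℤ × ℤ) →₀ LaurentSeries ℂ} (hg : g ≠ 0) (hsupp : (↑g.support : Set (ℤ × ℤ)) ⊆ S ∪ T)
    (hLM : ∀ i, LM g (cst (x i)) (cst (y i)) (w i)) :
    ∃ m ∈ T, g m ≠ 0 ∧ ∀ m', g m' ≠ 0 → (g m).order ≤ (g m').order := by
  obtain ⟨n, hn1, hn2, hn3⟩ := exists_lead hg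
  by_contra hcon
  push Not at hcon
  apply hn1
  apply hS
  · intro m hm
    have hm' : (g m).coeff n ≠ 0 := by simpa using hm
    obtain ⟨h1, h2⟩ := hn3 m hm'
    rcases hsupp (Finset.mem_coe.2 (Finsupp.mem_support_iff.2 h1)) with h | h
    · exact h
    · exfalso
      obtain ⟨m', h3, h4⟩ := hcon m h h1
      have := le_order hn2 h3
      omega
  · exact fun i => LM_coeff (hLM i) n

theorem Emp_cut {ι κ : Type} [Finite ι] [Finite κ] {w : ι → ℕ} {v : κ → ℕ} {S T : Set (ℤ × ℤ)}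
    (hS : S.Finite) (hT : T.Finite) (hS0 : ∀ m ∈ S, 0 ≤ m.1 ∧ 0 ≤ m.2)
    (hT0 : ∀ m ∈ T, 0 ≤ m.1 ∧ 0 ≤ m.2) (a b : ℤ)
    (hcut : ∀ m ∈ S, ∀ m' ∈ T, a * m.1 + b * m.2 < a * m'.1 + b * m'.2)
    (h1 : Emp w S) (h2 : Emp v T) : Emp (Sum.elim w v) (S ∪ T) := by
  obtain ⟨z, hz⟩ := exists_indep ((ι ⊕ κ) × Fin 2)
  have hzne : ∀ q, z q ≠ 0 := fun q => hz.ne_zero q
  have k1 := Pool.Agent.TH15.Nag.Emp_generic hS hS0 h1
    (x := fun i => z (Sum.inl i, 0)) (y := fun i => z (Sum.inl i, 1)) (by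
      have e : (fun q : ι × Fin 2 => (![z (Sum.inl q.1, 0), z (Sum.inl q.1, 1)] : Fin 2 → ℂ) q.2) =
          fun q : ι × Fin 2 => z (Sum.inl q.1, q.2) := by
        funext q
        obtain ⟨i, j⟩ := q
        fin_cases j <;> rfl
      rw [e]
      refine hz.comp (fun q : ι × Fin 2 => (Sum.inl q.1, q.2)) ?_
      rintro ⟨i, j⟩ ⟨i', j'⟩ h
      simpa using h)
  have k2 := Pool.Agent.TH15.Nag.Emp_generic hT hT0 h2
    (x := fun i => z (Sum.inr i, 0)) (y := fun i => z (Sum.inr i, 1)) (by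
      have e : (fun q : κ × Fin 2 => (![z (Sum.inr q.1, 0), z (Sum.inr q.1, 1)] : Fin 2 → ℂ) q.2) =
          fun q : κ × Fin 2 => z (Sum.inr q.1, q.2) := by
        funext q
        obtain ⟨i, j⟩ := q
        fin_cases j <;> rfl
      rw [e]
      refine hz.comp (fun q : κ × Fin 2 => (Sum.inr q.1, q.2)) ?_
      rintro ⟨i, j⟩ ⟨i', j'⟩ h
      simpa using h)
  have ht : tv ℂ ≠ 0 := tv_ne
  have hc : ∀ q, cst (z q) ≠ 0 := fun q => by
    intro h0
    apply hzne q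
    exact HahnSeries.C_injective (h0.trans (map_zero _).symm)
  refine ⟨LaurentSeries ℂ, inferInstance, inferInstance,
    Sum.elim (fun i => cst (z (Sum.inl i, 0))) (fun j => tv ℂ ^ (-a) * cst (z (Sum.inr j, 0))),
    Sum.elim (fun i => cst (z (Sum.inl i, 1))) (fun j => tv ℂ ^ (-b) * cst (z (Sum.inr j, 1))),
    ?_, ?_, ?_⟩
  · rintro (i | j)
    · exact hc _
    · exact mul_ne_zero (zpow_ne_zero _ ht) (hc _)
  · rintro (i | j)
    · exact hc _
    · exact mul_ne_zero (zpow_ne_zero _ ht) (hc _)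
  intro f hfS hfL
  by_contra hf0
  -- the leading part of `f`
  obtain ⟨m, hmT, hm0, hmin⟩ := lead_out (T := T) k1 hf0 hfS (fun i => hfL (Sum.inl i))
  -- the leading part of the scaled family
  have hg0 : sc a b f ≠ 0 := by
    intro h
    apply hf0
    rw [← Finsupp.support_eq_empty, ← sc_support a b, h, Finsupp.support_zero]
  have hgS : (↑(sc a b f).support : Set (ℤ × ℤ)) ⊆ T ∪ S := by
    rw [sc_support, Set.union_comm]
    exact hfS
  obtain ⟨m', hmS, hm0', hmin'⟩ := lead_out (T := S) k2 hg0 hgS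
    (fun j => LM_sc (hfL (Sum.inr j)))
  have hfm' : f m' ≠ 0 := by
    rw [← Finsupp.mem_support_iff, ← sc_support a b, Finsupp.mem_support_iff]
    exact hm0'
  have hgm : sc a b f m ≠ 0 := by
    rw [← Finsupp.mem_support_iff, sc_support, Finsupp.mem_support_iff]
    exact hm0
  have e1 := hmin m' hfm'
  have e2 := hmin' m hgm
  rw [sc_order hfm', sc_order hm0] at e2
  have e3 := hcut m' hmS m hmT
  linarith

end Pool.Agent.TH698.NagT3
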